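import Pool.Agent.H52.BN1

set_option autoImplicit false

namespace Pool.Agent.Results.MP_52d0c2_ag.ToricNotPerfect

open MvPolynomial

/-- A Bayesian network: vertices `Fin n`, state numbers `k i ≥ 2`, parent sets `Pa j`, every edge
going from a smaller to a larger vertex. -/
structure BN where
  n : ℕ
  k : Fin n → ℕ
  two_le : ∀ i, 2 ≤ k i
  Pa : Fin n → Finset (Fin n)
  lt : ∀ j, ∀ i ∈ Pa j, i < j

/-- Joint states `u`. -/
abbrev State (G : BN) := ∀ i, Fin (G.k i)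

/-- Parent configurations of the vertex `j`. -/
abbrev Conf (G : BN) (j : Fin G.n) := ∀ i : G.Pa j, Fin (G.k i)

/-- The parameters `θ (j, s, a)` and the extra variable `z = none`. -/
abbrev Par (G : BN) := Option (Σ j : Fin G.n, Fin (G.k j) × Conf G j)

/-- The ideal generated by all `∑ s, θ (j, s, a) - z`. -/
noncomputable def J (G : BN) : Ideal (MvPolynomial (Par G) ℝ) :=
  Ideal.span {f | ∃ j a, f = ∑ s, X (some ⟨j, s, a⟩) - X none}

/-- The parametrisation `x u ↦ ∏ j, θ (j, u j, u restricted to Pa j)`. -/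
noncomputable def phi (G : BN) : MvPolynomial (State G) ℝ →ₐ[ℝ] MvPolynomial (Par G) ℝ :=
  aeval fun u => ∏ j, X (some ⟨j, u j, fun i => u i⟩)

/-- `P_G`, the kernel of the parametrisation modulo `J`. -/
noncomputable def P (G : BN) : Ideal (MvPolynomial (State G) ℝ) := (J G).comap (phi G)

/-- A prime ideal generated by binomials. -/
def ToricIdeal {U : Type} (I : Ideal (MvPolynomial U ℝ)) : Prop :=
  I.IsPrime ∧ ∃ S : Set (MvPolynomial U ℝ),
    (∀ f ∈ S, ∃ a b, f = monomial a 1 - monomial b 1) ∧ I = Ideal.span S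

/-- The linear change of variables `x u ↦ ∑ v, M u v x v`. -/
noncomputable def lin {U : Type} [Fintype U] (M : Matrix U U ℝ) :
    MvPolynomial U ℝ →ₐ[ℝ] MvPolynomial U ℝ := aeval fun u => ∑ v, M u v • X v

/-- `P_G` becomes toric after an invertible linear change of variables. -/
def Toric (G : BN) : Prop :=
  ∃ M : Matrix (State G) (State G) ℝ, IsUnit M ∧ ToricIdeal ((P G).map (lin M))

/-- The induced subgraph on the non-sinks is perfect: the parents (which are non-sinks) of every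
non-sink are pairwise adjacent. -/
def PerfectNonSinks (G : BN) : Prop :=
  ∀ j, (∃ l, j ∈ G.Pa l) → ∀ i ∈ G.Pa j, ∀ i' ∈ G.Pa j, i ≠ i' → i ∈ G.Pa i' ∨ i' ∈ G.Pa i

/-- the example -/
abbrev G0 : BN where
  n := 4
  k := fun _ => 2
  two_le := fun _ => le_rfl
  Pa := ![∅, ∅, {0, 1}, {0, 1, 2}]
  lt := by decide

abbrev U := Fin 4 → Fin 2

/-- nilpotent part of the change of variables -/
def N : Matrix U U ℝ := fun u v =>
  if u 2 = 0 ∧ u 3 = 0 then (if v = ![u 0, u 1, 0, 1] then 1 else 0)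
    + (if v = ![u 0, u 1, 1, 0] then 1 else 0) + (if v = ![u 0, u 1, 1, 1] then 1 else 0) else 0

lemma hN {V : Type} [AddCommGroup V] [Module ℝ V] (z : U → V) (u : U) :
    ∑ v, N u v • z v = if u 2 = 0 ∧ u 3 = 0 then
      z ![u 0, u 1, 0, 1] + z ![u 0, u 1, 1, 0] + z ![u 0, u 1, 1, 1] else 0 := by
  unfold N
  split_ifs with h
  · simp [add_smul, Finset.sum_add_distrib]
  · simp

lemma hM {V : Type} [AddCommGroup V] [Module ℝ V] (z : U → V) (u : U) :
    ∑ v, (1 - N) u v • z v = z u - if u 2 = 0 ∧ u 3 = 0 then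
      z ![u 0, u 1, 0, 1] + z ![u 0, u 1, 1, 0] + z ![u 0, u 1, 1, 1] else 0 := by
  simp only [Matrix.sub_apply, sub_smul, Finset.sum_sub_distrib, hN]
  simp [Matrix.one_apply]

lemma unit : IsUnit (1 - N) := by
  refine IsNilpotent.isUnit_one_sub ⟨2, ?_⟩
  ext u w
  rw [sq, Matrix.mul_apply]
  have := hN (fun v => N v w) u
  simp only [smul_eq_mul] at this
  rw [this]
  simp [N]

/-- marginal sums -/
noncomputable def S (a b : Fin 2) : MvPolynomial U ℝ :=
  X ![a, b, 0, 0] + X ![a, b, 0, 1] + X ![a, b, 1, 0] + X ![a, b, 1, 1]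

lemma linS (a b : Fin 2) : lin (1 - N) (S a b) = X ![a, b, 0, 0] := by
  simp only [S, lin, map_add, aeval_X, hM]
  simp
  ring

/-- one parameter -/
noncomputable def th (j : Fin 4) (u : U) : MvPolynomial (Par G0) ℝ :=
  X (some ⟨j, u j, fun i => u i⟩)

lemma th_congr (j : Fin 4) (u u' : U) (h : u j = u' j) (h' : ∀ i ∈ G0.Pa j, u i = u' i) :
    th j u = th j u' := by
  have : (fun i : G0.Pa j => u i) = fun i : G0.Pa j => u' i := funext fun i => h' i i.2
  unfold th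
  rw [this, h]

lemma rel (j : Fin 4) (u u' : U) (h : u j = 0) (h1 : u' j = 1) (h' : ∀ i ∈ G0.Pa j, u i = u' i) :
    Ideal.Quotient.mk (J G0) (th j u) + Ideal.Quotient.mk (J G0) (th j u')
      = Ideal.Quotient.mk (J G0) (X none) := by
  rw [← map_add, Ideal.Quotient.eq]
  refine Ideal.subset_span ⟨j, fun i => u i, ?_⟩
  have : (fun i : G0.Pa j => u' i) = fun i : G0.Pa j => u i := funext fun i => (h' i i.2).symm
  unfold th
  rw [this, h, h1]
  exact congrArg (· - _) (Fin.sum_univ_two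
    (fun s : Fin 2 => (X (some ⟨j, s, fun i => u i⟩) : MvPolynomial (Par G0) ℝ))).symm

lemma phiX (a b c d : Fin 2) : phi G0 (X ![a, b, c, d]) =
    th 0 ![a, 0, 0, 0] * th 1 ![0, b, 0, 0] * th 2 ![a, b, c, 0] * th 3 ![a, b, c, d] := by
  rw [th_congr 0 ![a, 0, 0, 0] ![a, b, c, d] rfl (by simp),
    th_congr 1 ![0, b, 0, 0] ![a, b, c, d] rfl (by simp),
    th_congr 2 ![a, b, c, 0] ![a, b, c, d] rfl (by simp), phi, aeval_X]
  exact Fin.prod_univ_four (fun j => th j ![a, b, c, d])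

lemma phiS (a b : Fin 2) : Ideal.Quotient.mk (J G0) (phi G0 (S a b)) =
    Ideal.Quotient.mk (J G0) (th 0 ![a, 0, 0, 0]) * Ideal.Quotient.mk (J G0) (th 1 ![0, b, 0, 0])
      * Ideal.Quotient.mk (J G0) (X none) ^ 2 := by
  have h0 := rel 3 ![a, b, 0, 0] ![a, b, 0, 1] rfl rfl (by simp)
  have h1 := rel 3 ![a, b, 1, 0] ![a, b, 1, 1] rfl rfl (by simp)
  have h2 := rel 2 ![a, b, 0, 0] ![a, b, 1, 0] rfl rfl (by simp)
  rw [S, map_add (phi G0), map_add (phi G0), map_add (phi G0), phiX, phiX, phiX, phiX]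
  simp only [map_add, map_mul]
  set p := Ideal.Quotient.mk (J G0) (th 0 ![a, 0, 0, 0])
  set q := Ideal.Quotient.mk (J G0) (th 1 ![0, b, 0, 0])
  linear_combination p * q * Ideal.Quotient.mk (J G0) (th 2 ![a, b, 0, 0]) * h0
    + p * q * Ideal.Quotient.mk (J G0) (th 2 ![a, b, 1, 0]) * h1
    + p * q * Ideal.Quotient.mk (J G0) (X none) * h2

/-- real values of the parameters -/
def tv (z : ℝ) (t0 t1 : Fin 2 → ℝ) (t2 : Fin 2 → Fin 2 → Fin 2 → ℝ)
    (t3 : Fin 2 → Fin 2 → Fin 2 → Fin 2 → ℝ) : Par G0 → ℝ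
  | none => z
  | some ⟨⟨0, _⟩, s, _⟩ => t0 s
  | some ⟨⟨1, _⟩, s, _⟩ => t1 s
  | some ⟨⟨2, _⟩, s, e⟩ => t2 (e ⟨0, show (0 : Fin 4) ∈ G0.Pa 2 by decide⟩)
      (e ⟨1, show (1 : Fin 4) ∈ G0.Pa 2 by decide⟩) s
  | some ⟨⟨3, _⟩, s, e⟩ => t3 (e ⟨0, show (0 : Fin 4) ∈ G0.Pa 3 by decide⟩)
      (e ⟨1, show (1 : Fin 4) ∈ G0.Pa 3 by decide⟩) (e ⟨2, show (2 : Fin 4) ∈ G0.Pa 3 by decide⟩) s

lemma van (z : ℝ) (t0 t1 : Fin 2 → ℝ) (t2 : Fin 2 → Fin 2 → Fin 2 → ℝ)
    (t3 : Fin 2 → Fin 2 → Fin 2 → Fin 2 → ℝ) (h0 : t0 0 + t0 1 = z) (h1 : t1 0 + t1 1 = z)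
    (h2 : ∀ a b, t2 a b 0 + t2 a b 1 = z) (h3 : ∀ a b c, t3 a b c 0 + t3 a b c 1 = z)
    (f : MvPolynomial U ℝ) (hf : f ∈ P G0) :
    eval (fun u : U => t0 (u 0) * t1 (u 1) * t2 (u 0) (u 1) (u 2) * t3 (u 0) (u 1) (u 2) (u 3)) f
      = 0 := by
  have hJ : J G0 ≤ RingHom.ker (eval (tv z t0 t1 t2 t3)) := by
    refine Ideal.span_le.2 ?_
    rintro _ ⟨j, e, rfl⟩
    simp only [SetLike.mem_coe, RingHom.mem_ker, map_sub, map_sum, eval_X, sub_eq_zero]
    refine (Fin.sum_univ_two (fun s : Fin 2 => tv z t0 t1 t2 t3 (some ⟨j, s, e⟩))).trans ?_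
    fin_cases j
    · exact h0
    · exact h1
    · exact h2 _ _
    · exact h3 _ _ _
  have e : (eval (tv z t0 t1 t2 t3)).comp (phi G0).toRingHom = eval (fun u : U =>
      t0 (u 0) * t1 (u 1) * t2 (u 0) (u 1) (u 2) * t3 (u 0) (u 1) (u 2) (u 3)) := by
    refine ringHom_ext (fun r => by simp) fun u => ?_
    simp only [phi, RingHom.comp_apply, AlgHom.toRingHom_eq_coe, RingHom.coe_coe, aeval_X,
      map_prod, eval_X]
    exact Fin.prod_univ_four (fun j => tv z t0 t1 t2 t3 (some ⟨j, u j, fun i => u i⟩))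
  rw [← e]
  exact hJ hf

lemma van' (f : MvPolynomial U ℝ) (hf : f ∈ P G0) (y : U → ℝ)
    (hy : y ∈ Set.pi Set.univ fun u : U =>
      if u 2 = 0 ∧ u 3 = 0 then Set.Ioi (0 : ℝ) else Set.Iio 0)
    (e : y ![1, 1, 0, 0] * y ![0, 0, 0, 0] = y ![0, 1, 0, 0] * y ![1, 0, 0, 0]) :
    eval y (lin (1 - N) f) = 0 := by
  have hA : ∀ a b, 0 < y ![a, b, 0, 0] := fun a b => by simpa using hy ![a, b, 0, 0] trivial
  have h10 : ∀ a b, y ![a, b, 1, 0] < 0 := fun a b => by simpa using hy ![a, b, 1, 0] trivial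
  have h11 : ∀ a b, y ![a, b, 1, 1] < 0 := fun a b => by simpa using hy ![a, b, 1, 1] trivial
  set x : U → ℝ := fun u => y u - if u 2 = 0 ∧ u 3 = 0 then
      y ![u 0, u 1, 0, 1] + y ![u 0, u 1, 1, 0] + y ![u 0, u 1, 1, 1] else 0 with hx
  have e1 : (eval y).comp (lin (1 - N)).toRingHom = eval x := by
    refine ringHom_ext (fun r => by simp) fun u => ?_
    simp only [lin, RingHom.comp_apply, AlgHom.toRingHom_eq_coe, RingHom.coe_coe, aeval_X, hM,
      eval_X, hx, map_sub]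
    split_ifs <;> simp
  change ((eval y).comp (lin (1 - N)).toRingHom) f = 0
  rw [e1]
  obtain ⟨T, hT⟩ : ∃ T, T = y ![0, 0, 0, 0] + y ![0, 1, 0, 0] + y ![1, 0, 0, 0] + y ![1, 1, 0, 0] :=
    ⟨_, rfl⟩
  have T0 : 0 < T := by linarith [hA 0 0, hA 0 1, hA 1 0, hA 1 1]
  have hz : √√T ^ 4 = T := by
    rw [show 4 = 2 * 2 from rfl, pow_mul, Real.sq_sqrt (Real.sqrt_nonneg _), Real.sq_sqrt T0.le]
  set z := √√T
  let p : Fin 2 → Fin 2 → Fin 2 → ℝ := fun a b c => x ![a, b, c, 0] + x ![a, b, c, 1]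
  have p0 : ∀ a b c, p a b c ≠ 0 := by
    intro a b c
    fin_cases c
    · refine ne_of_gt ?_
      simp [p, hx]
      linarith [hA a b, h10 a b, h11 a b]
    · refine ne_of_lt ?_
      simp [p, hx]
      linarith [h10 a b, h11 a b]
  have ps : ∀ a b, p a b 0 + p a b 1 = y ![a, b, 0, 0] := by
    intro a b
    simp [p, hx]
    ring
  have := van z (fun a => z * (y ![a, 0, 0, 0] + y ![a, 1, 0, 0]) / T)
    (fun b => z * (y ![0, b, 0, 0] + y ![1, b, 0, 0]) / T)
    (fun a b c => z * p a b c / y ![a, b, 0, 0]) (fun a b c d => z * x ![a, b, c, d] / p a b c)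
    (by field_simp; rw [hT]; ring) (by field_simp; rw [hT]; ring)
    (fun a b => by have := (hA a b).ne'; field_simp; rw [ps])
    (fun a b c => by have := p0 a b c; field_simp; rfl) f hf
  rw [← this]
  congr 2
  funext u
  have hu : u = ![u 0, u 1, u 2, u 3] := by
    funext i; fin_cases i <;> rfl
  have r : ∀ a b, (y ![a, 0, 0, 0] + y ![a, 1, 0, 0]) * (y ![0, b, 0, 0] + y ![1, b, 0, 0])
      = T * y ![a, b, 0, 0] := by
    intro a b
    rw [hT]
    fin_cases a <;> fin_cases b <;> simp only [Fin.zero_eta, Fin.mk_one, Fin.isValue]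
    · linear_combination -e
    · linear_combination e
    · linear_combination e
    · linear_combination -e
  have a0 := (hA (u 0) (u 1)).ne'
  have a1 := p0 (u 0) (u 1) (u 2)
  rw [← hu]
  field_simp
  linear_combination (-x u * z ^ 4) * r (u 0) (u 1) - x u * T * y ![u 0, u 1, 0, 0] * hz

theorem result : ∃ G : BN, Toric G ∧ ¬ PerfectNonSinks G := by
  refine ⟨G0, ⟨1 - N, unit, ?_⟩, fun h => ?_⟩
  · have key : (P G0).map (lin (1 - N)) = Ideal.span {(X ![1, 1, 0, 0] * X ![0, 0, 0, 0]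
        - X ![0, 1, 0, 0] * X ![1, 0, 0, 0] : MvPolynomial U ℝ)} := by
      refine le_antisymm (Ideal.map_le_iff_le_comap.2 fun f hf => ?_) ?_
      · refine Ideal.mem_span_singleton.2 (H52.BN.dvd_q (by decide) (by decide) (by decide)
          (by decide) (by decide)
          (fun u : U => if u 2 = 0 ∧ u 3 = 0 then Set.Ioi (0 : ℝ) else Set.Iio 0) ?_ (by simp) ?_
          _ (van' f hf))
        · intro u
          split_ifs
          · exact Set.Ioi_infinite _
          · exact Set.Iio_infinite _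
        · intro y hy
          have hA : ∀ a b, 0 < y ![a, b, 0, 0] := fun a b => by
            simpa using hy ![a, b, 0, 0] trivial
          have := div_pos (mul_pos (hA 0 1) (hA 1 0)) (hA 1 1)
          simpa using this
      · rw [Ideal.span_le, Set.singleton_subset_iff, ← linS, ← linS, ← linS, ← linS, ← map_mul,
          ← map_mul, ← map_sub]
        refine Ideal.mem_map_of_mem _ ?_
        change phi G0 _ ∈ J G0
        rw [← Ideal.Quotient.eq_zero_iff_mem]
        simp only [map_sub, map_mul, phiS]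
        ring
    change ToricIdeal ((P G0).map (lin (1 - N)))
    rw [key]
    have hp := H52.BN.prime_q (U := U) (a := ![0, 0, 0, 0]) (b := ![0, 1, 0, 0])
      (c := ![1, 0, 0, 0]) (d := ![1, 1, 0, 0]) (by decide) (by decide) (by decide)
      (by decide) (by decide)
    refine ⟨(Ideal.span_singleton_prime hp.ne_zero).2 hp, _, ?_, rfl⟩
    rintro _ rfl
    refine ⟨(Finsupp.single (![1, 1, 0, 0] : U) 1 + Finsupp.single (![0, 0, 0, 0] : U) 1 : U →₀ ℕ),
      (Finsupp.single (![0, 1, 0, 0] : U) 1 + Finsupp.single (![1, 0, 0, 0] : U) 1 : U →₀ ℕ), ?_⟩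
    simp only [X, monomial_mul, mul_one]
  · exact absurd (h 2 ⟨3, by decide⟩ 0 (by decide) 1 (by decide) (by decide)) (by decide)

end Pool.Agent.Results.MP_52d0c2_ag.ToricNotPerfect
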